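import Mathlib

/-!
# Primitive positive constructions: definitions
-/

set_option autoImplicit false

namespace Pool.Agent.Q307.PPC

/-- A relational signature: relation symbols with arities. -/
structure Sig where
  /-- the relation symbols -/
  sym : Type
  /-- the arities -/
  ar : sym → ℕ

/-- Primitive positive formulas over the signature `S` with free variables from `V`: they are built
from atomic formulas (including equalities) by conjunctions and existential quantifiers; the
quantified variable is the element `none` of `Option V`. -/
inductive PP (S : Sig) : Type → Type 1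
  | rel {V : Type} (R : S.sym) (v : Fin (S.ar R) → V) : PP S V
  | eq {V : Type} (x y : V) : PP S V
  | and {V : Type} (φ ψ : PP S V) : PP S V
  | ex {V : Type} (φ : PP S (Option V)) : PP S V

/-- A relational structure with nonempty domain. -/
structure Str where
  /-- the signature -/
  sig : Sig
  /-- the domain -/
  dom : Type
  /-- the domain is not empty -/
  inh : Nonempty dom
  /-- the relations -/
  rel : ∀ R : sig.sym, (Fin (sig.ar R) → dom) → Prop

/-- The formula `φ` holds in `B` under the assignment `a`. -/
def Holds (B : Str) : ∀ {V : Type}, PP B.sig V → (V → B.dom) → Prop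
  | _, .rel R v, a => B.rel R (fun i => a (v i))
  | _, .eq x y, a => a x = a y
  | _, .and φ ψ, a => Holds B φ a ∧ Holds B ψ a
  | _, .ex φ, a => ∃ b : B.dom, Holds B φ (fun o => o.elim b a)

/-- The `d`-th pp-power of `B` with signature `S`: the domain is `B ^ d`, and a relation of arity
`k`, read as a relation of arity `k * d` on `B`, is defined by a pp formula. -/
def power (B : Str) (S : Sig) (d : ℕ) (ψ : ∀ R : S.sym, PP B.sig (Fin (S.ar R) × Fin d)) : Str where
  sig := S
  dom := Fin d → B.dom
  inh := B.inh.map fun b _ => b
  rel := fun R t => Holds B (ψ R) (fun p => t p.1 p.2)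

/-- `f` is a homomorphism between two interpretations of one signature. -/
def IsHom {S : Sig} {A B : Type} (rA : ∀ R : S.sym, (Fin (S.ar R) → A) → Prop)
    (rB : ∀ R : S.sym, (Fin (S.ar R) → B) → Prop) (f : A → B) : Prop :=
  ∀ (R : S.sym) (t : Fin (S.ar R) → A), rA R t → rB R (fun i => f (t i))

/-- `A` has a pp-construction from `B`: it is homomorphically equivalent to a pp-power of `B`. -/
def Constructs (B A : Str) : Prop :=
  ∃ (d : ℕ) (_ : 1 ≤ d) (ψ : ∀ R : A.sig.sym, PP B.sig (Fin (A.sig.ar R) × Fin d)),
    (∃ f : A.dom → (Fin d → B.dom), IsHom A.rel (power B A.sig d ψ).rel f) ∧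
    (∃ g : (Fin d → B.dom) → A.dom, IsHom (power B A.sig d ψ).rel A.rel g)

/-- The structure `P₂`: the domain has two elements `0`, `1`, and there is one binary relation
`{(0, 1)}`. -/
def P2 : Str where
  sig := ⟨Unit, fun _ => 2⟩
  dom := Fin 2
  inh := ⟨0⟩
  rel := fun _ t => t 0 = 0 ∧ t 1 = 1

end Pool.Agent.Q307.PPC
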