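import Pool.Agent.Q307.PPC.Trans

/-!
# A countable family of obstructions to pp-constructibility from `P₂`
-/

set_option autoImplicit false

namespace Pool.Agent.Q307.PPC

open Set

/-- The reduct to the symbols from `F`. -/
def reduct (A : Str) (F : Set A.sig.sym) : Str where
  sig := ⟨F, fun R => A.sig.ar R.1⟩
  dom := A.dom
  inh := A.inh
  rel := fun R t => A.rel R.1 t

/-- A formula with the fewest satisfying assignments among the formulas which hold on a given
set. -/
theorem exists_least (B : Str) [Finite B.dom] {V : Type} [Finite V] (P : Set (V → B.dom)) :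
    ∃ φ : PP B.sig V, (∀ a ∈ P, Holds B φ a) ∧
      ∀ ψ : PP B.sig V, (∀ a ∈ P, Holds B ψ a) → ∀ a, Holds B φ a → Holds B ψ a := by
  classical
  have hne : {n : ℕ | ∃ φ : PP B.sig V, (∀ a ∈ P, Holds B φ a) ∧ {a | Holds B φ a}.ncard = n}.Nonempty :=
    ⟨_, top V, fun a _ => holds_top B a, rfl⟩
  obtain ⟨φ, h1, h2⟩ := Nat.sInf_mem hne
  refine ⟨φ, h1, fun ψ hψ a ha => ?_⟩
  by_contra hcon
  have h3 : {a | Holds B (.and φ ψ) a}.ncard < {a | Holds B φ a}.ncard := by
    refine Set.ncard_lt_ncard ?_ (Set.toFinite _)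
    refine ⟨fun b hb => hb.1, fun hsub => hcon (hsub ha).2⟩
  have h4 := Nat.sInf_le (s := {n : ℕ | ∃ φ : PP B.sig V, (∀ a ∈ P, Holds B φ a) ∧
    {a | Holds B φ a}.ncard = n}) ⟨.and φ ψ, fun a ha => ⟨h1 a ha, hψ a ha⟩, rfl⟩
  rw [← h2] at h4
  exact absurd h3 (not_lt.mpr h4)

/-- Compactness: if all finite reducts of `A` have a pp-construction from `B`, so does `A`. -/
theorem compactness (B A : Str) [Finite B.dom] [Finite A.dom]
    (h : ∀ F : Set A.sig.sym, F.Finite → Constructs B (reduct A F)) : Constructs B A := by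
  classical
  obtain ⟨b₀⟩ := B.inh
  have : Nonempty (A.dom → B.dom) := ⟨fun _ => b₀⟩
  have : Fintype (A.dom → B.dom) := Fintype.ofFinite _
  set d := Fintype.card (A.dom → B.dom) with hd
  have hd1 : 1 ≤ d := Fintype.card_pos
  set e : Fin d ≃ (A.dom → B.dom) := (Fintype.equivFin _).symm with he
  set hh : A.dom → (Fin d → B.dom) := fun a j => e j a with hhdef
  have hex : ∀ R : A.sig.sym, ∃ φ : PP B.sig (Fin (A.sig.ar R) × Fin d),
      (∀ t, A.rel R t → Holds B φ (fun p => hh (t p.1) p.2)) ∧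
      ∀ ψ : PP B.sig (Fin (A.sig.ar R) × Fin d),
        (∀ t, A.rel R t → Holds B ψ (fun p => hh (t p.1) p.2)) →
        ∀ a, Holds B φ a → Holds B ψ a := by
    intro R
    obtain ⟨φ, h1, h2⟩ := exists_least B
      {a : Fin (A.sig.ar R) × Fin d → B.dom | ∃ t, A.rel R t ∧ a = fun p => hh (t p.1) p.2}
    refine ⟨φ, fun t ht => h1 _ ⟨t, ht, rfl⟩, fun ψ hψ a ha => h2 ψ ?_ a ha⟩
    rintro _ ⟨t, ht, rfl⟩
    exact hψ t ht
  choose φ hφ1 hφ2 using hex
  have hg : ∀ F : Set A.sig.sym, F.Finite → ∃ g : (Fin d → B.dom) → A.dom,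
      ∀ R ∈ F, ∀ t : Fin (A.sig.ar R) → (Fin d → B.dom), Holds B (φ R) (fun p => t p.1 p.2) →
      A.rel R (fun i => g (t i)) := by
    intro F hF
    obtain ⟨d', _, ψ, ⟨f', hf'⟩, ⟨g', hg'⟩⟩ := h F hF
    let π : (Fin d → B.dom) → (Fin d' → B.dom) := fun t j => t (e.symm (fun a => f' a j))
    have hπ : ∀ a, π (hh a) = f' a := by
      intro a
      funext j
      show e (e.symm (fun a => f' a j)) a = f' a j
      rw [Equiv.apply_symm_apply]
    refine ⟨fun t => g' (π t), fun R hR t ht => ?_⟩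
    have h3 := hφ2 R (rename (fun p => (p.1, e.symm (fun a => f' a p.2))) (ψ ⟨R, hR⟩)) (by
      intro s hs
      rw [holds_rename]
      have h4 := hf' ⟨R, hR⟩ s hs
      have h5 : (fun v : Fin (A.sig.ar R) × Fin d' => hh (s v.1) (e.symm fun a => f' a v.2)) =
          fun p => f' (s p.1) p.2 := by
        funext p
        exact congrFun (hπ (s p.1)) p.2
      show Holds B (ψ ⟨R, hR⟩) (fun v : Fin (A.sig.ar R) × Fin d' =>
        hh (s v.1) (e.symm fun a => f' a v.2))
      rw [h5]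
      exact h4) _ ht
    rw [holds_rename] at h3
    exact hg' ⟨R, hR⟩ (fun i => π (t i)) h3
  have hall : ∃ g : (Fin d → B.dom) → A.dom, ∀ R, ∀ t : Fin (A.sig.ar R) → (Fin d → B.dom),
      Holds B (φ R) (fun p => t p.1 p.2) → A.rel R (fun i => g (t i)) := by
    by_contra hcon
    push Not at hcon
    choose R t ht hnt using hcon
    obtain ⟨g, hg⟩ := hg (range R) (Set.finite_range R)
    exact hnt g (hg (R g) (mem_range_self g) (t g) (ht g))
  obtain ⟨g, hg⟩ := hall
  exact ⟨d, hd1, φ, ⟨hh, hφ1⟩, ⟨g, hg⟩⟩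

/-- The canonical finite structures. -/
abbrev Code : Type := Σ (m : ℕ) (ar : Fin m → ℕ) (n : ℕ), ∀ R : Fin m, Set (Fin (ar R) → Fin (n + 1))

instance : Countable Code := by
  unfold Code
  infer_instance

/-- The structure of a code. -/
def ofCode (c : Code) : Str where
  sig := ⟨Fin c.1, c.2.1⟩
  dom := Fin (c.2.2.1 + 1)
  inh := ⟨0⟩
  rel := fun R t => t ∈ c.2.2.2 R

/-- A finite structure constructs its canonical copy, and conversely. -/
theorem exists_code (A : Str) (hs : Finite A.sig.sym) (hd : Finite A.dom) :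
    ∃ c : Code, Constructs A (ofCode c) ∧ Constructs (ofCode c) A := by
  classical
  have := A.inh
  have : Fintype A.sig.sym := Fintype.ofFinite _
  have : Fintype A.dom := Fintype.ofFinite _
  obtain ⟨n, hn⟩ : ∃ n, Fintype.card A.dom = n + 1 :=
    ⟨Fintype.card A.dom - 1, by have := Fintype.card_pos (α := A.dom); omega⟩
  let e : Fin (Fintype.card A.sig.sym) ≃ A.sig.sym := (Fintype.equivFin _).symm
  let u : Fin (n + 1) ≃ A.dom := (finCongr hn.symm).trans (Fintype.equivFin A.dom).symm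
  let c : Code := ⟨Fintype.card A.sig.sym, fun R => A.sig.ar (e R), n,
    fun R => {t | A.rel (e R) (fun i => u (t i))}⟩
  have hcast : ∀ R : A.sig.sym, A.sig.ar (e (e.symm R)) = A.sig.ar R := fun R =>
    congrArg A.sig.ar (e.apply_symm_apply R)
  refine ⟨c, ⟨1, le_rfl, fun R => .rel (S := A.sig) (e R) (fun i => (i, 0)), ⟨fun a _ => u a, ?_⟩,
    ⟨fun t => u.symm (t 0), ?_⟩⟩, ⟨1, le_rfl, fun R => .rel (S := (ofCode c).sig) (e.symm R)
      (fun i => (Fin.cast (hcast R) i, 0)), ?_⟩⟩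
  · intro R t ht
    exact ht
  · intro R t ht
    have h1 : A.rel (e R) (fun i => t i 0) := ht
    show A.rel (e R) (fun i => u (u.symm (t i 0)))
    simpa using h1
  · have key : ∀ (R : A.sig.sym) (t : Fin (A.sig.ar R) → Fin (n + 1)),
        A.rel (e (e.symm R)) (fun i => u (t (Fin.cast (hcast R) i))) ↔
        A.rel R (fun i => u (t i)) := by
      intro R t
      have h2 : ∀ (R' : A.sig.sym) (h : R' = R), A.rel R' (fun i =>
          u (t (Fin.cast (congrArg A.sig.ar h) i))) ↔ A.rel R (fun i => u (t i)) := by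
        rintro R' rfl
        exact Iff.rfl
      exact h2 _ (Equiv.apply_symm_apply e R)
    refine ⟨⟨fun a _ => u.symm a, ?_⟩, ⟨fun t => u (t 0), ?_⟩⟩
    · intro R t ht
      refine (key R (fun i => u.symm (t i))).mpr ?_
      simpa using ht
    · intro R t ht
      exact (key R (fun i => t i 0)).mp ht

/-- The minimum. -/
def mn (a b : P2.dom) : P2.dom := (min (show Fin 2 from a) (show Fin 2 from b) : Fin 2)

theorem mn_comm (a b : P2.dom) : mn a b = mn b a :=
  min_comm (show Fin 2 from a) (show Fin 2 from b)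

theorem mn_self (a : P2.dom) : mn a a = a := min_self (show Fin 2 from a)

/-- The minimum is a polymorphism of `P₂`. -/
theorem holds_mn {V : Type} (φ : PP P2.sig V) (a b : V → P2.dom) (ha : Holds P2 φ a)
    (hb : Holds P2 φ b) : Holds P2 φ (fun v => mn (a v) (b v)) := by
  induction φ with
  | rel R v =>
    obtain ⟨h1, h2⟩ := ha
    obtain ⟨h3, h4⟩ := hb
    constructor
    · show mn (a (v (0 : Fin 2))) (b (v (0 : Fin 2))) = (0 : Fin 2)
      rw [show a (v (0 : Fin 2)) = (0 : Fin 2) from h1, show b (v (0 : Fin 2)) = (0 : Fin 2) from h3]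
      exact mn_self _
    · show mn (a (v (1 : Fin 2))) (b (v (1 : Fin 2))) = (1 : Fin 2)
      rw [show a (v (1 : Fin 2)) = (1 : Fin 2) from h2, show b (v (1 : Fin 2)) = (1 : Fin 2) from h4]
      exact mn_self _
  | eq x y =>
    show mn (a x) (b x) = mn (a y) (b y)
    rw [show a x = a y from ha, show b x = b y from hb]
  | and φ ψ ih1 ih2 => exact ⟨ih1 a b ha.1 hb.1, ih2 a b ha.2 hb.2⟩
  | ex φ ih =>
    obtain ⟨c, hc⟩ := ha
    obtain ⟨d, hd⟩ := hb
    refine ⟨mn c d, ?_⟩
    have h := ih _ _ hc hd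
    have h2 : (fun v : Option _ => mn (v.elim c a) (v.elim d b)) =
        fun o => o.elim (mn c d) (fun v => mn (a v) (b v)) := by
      funext o
      cases o <;> rfl
    rw [h2] at h
    exact h

/-- The complete graph with two vertices. -/
def K2 : Str where
  sig := ⟨Unit, fun _ => 2⟩
  dom := Fin 2
  inh := ⟨0⟩
  rel := fun _ t => t 0 ≠ t 1

theorem not_constructs_K2 : ¬ Constructs P2 K2 := by
  rintro ⟨d, _, ψ, ⟨f, hf⟩, ⟨g, hg⟩⟩
  have h1 := hf () (![(0 : Fin 2), 1] : Fin 2 → Fin 2) (by show (0 : Fin 2) ≠ 1; decide)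
  have h2 := hf () (![(1 : Fin 2), 0] : Fin 2 → Fin 2) (by show (1 : Fin 2) ≠ 0; decide)
  have h3 := holds_mn (ψ ()) _ _ h1 h2
  have h4 := hg () (fun _ => fun j => mn (f (0 : Fin 2) j) (f (1 : Fin 2) j)) (by
    have h5 : (fun p : Fin 2 × Fin d => mn (f ((![(0 : Fin 2), 1] : Fin 2 → Fin 2) p.1) p.2)
        (f ((![(1 : Fin 2), 0] : Fin 2 → Fin 2) p.1) p.2)) =
        fun p => mn (f (0 : Fin 2) p.2) (f (1 : Fin 2) p.2) := by
      funext p
      obtain ⟨i, j⟩ := p
      fin_cases i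
      · rfl
      · exact mn_comm _ _
    have h6 : Holds P2 (ψ ()) (fun p : Fin 2 × Fin d => mn (f (0 : Fin 2) p.2) (f (1 : Fin 2) p.2)) := by
      rw [← h5]
      exact h3
    exact h6)
  exact h4 rfl

/-- The countable family. -/
theorem main : ∃ C : ℕ → Str, (∀ i, Finite (C i).sig.sym ∧ Finite (C i).dom) ∧
    ∀ B : Str, Finite B.dom → (¬ Constructs P2 B ↔ ∃ i, Constructs B (C i)) := by
  classical
  let T : Set Code := {c | ¬ Constructs P2 (ofCode c)}
  have hne : T.Nonempty := by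
    obtain ⟨c, h1, h2⟩ := exists_code K2 (inferInstanceAs (Finite Unit))
      (inferInstanceAs (Finite (Fin 2)))
    refine ⟨c, fun h => not_constructs_K2 (trans h h2)⟩
  obtain ⟨C, hC⟩ := (Set.to_countable T).exists_eq_range hne
  have hCT : ∀ i, C i ∈ T := fun i => by rw [hC]; exact mem_range_self i
  refine ⟨fun i => ofCode (C i), fun i => ⟨inferInstanceAs (Finite (Fin _)),
    inferInstanceAs (Finite (Fin _))⟩, fun B hB => ⟨fun h => ?_, ?_⟩⟩
  · have hfin : Finite P2.dom := inferInstanceAs (Finite (Fin 2))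
    have h1 : ∃ F : Set B.sig.sym, F.Finite ∧ ¬ Constructs P2 (reduct B F) := by
      by_contra hcon
      push Not at hcon
      exact h (compactness P2 B hcon)
    obtain ⟨F, hF, hnot⟩ := h1
    obtain ⟨c, h2, h3⟩ := exists_code (reduct B F) hF.to_subtype hB
    have hcT : c ∈ T := fun h4 => hnot (trans h4 h3)
    rw [hC] at hcT
    obtain ⟨i, hi⟩ := hcT
    refine ⟨i, ?_⟩
    have h5 : Constructs B (reduct B F) := by
      refine ⟨1, le_rfl, fun R => .rel (S := B.sig) R.1 (fun i => (i, 0)), ⟨fun a _ => a, ?_⟩,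
        ⟨fun t => t 0, ?_⟩⟩
      · intro R t ht
        exact ht
      · intro R t ht
        exact ht
    show Constructs B (ofCode (C i))
    rw [hi]
    exact trans h5 h2
  · rintro ⟨i, hi⟩ h
    exact hCT i (trans h hi)

end Pool.Agent.Q307.PPC
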