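import Pool.Agent.Q307.PPC.Defs

/-!
# Primitive positive constructions are transitive
-/

set_option autoImplicit false

namespace Pool.Agent.Q307.PPC

/-- Renaming of the free variables. -/
def rename {S : Sig} : ∀ {V W : Type}, (V → W) → PP S V → PP S W
  | _, _, g, .rel R v => .rel R (fun i => g (v i))
  | _, _, g, .eq x y => .eq (g x) (g y)
  | _, _, g, .and φ ψ => .and (rename g φ) (rename g ψ)
  | _, _, g, .ex φ => .ex (rename (Option.map g) φ)

theorem holds_rename (B : Str) {V W : Type} (g : V → W) (φ : PP B.sig V) (a : W → B.dom) :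
    Holds B (rename g φ) a ↔ Holds B φ (fun v => a (g v)) := by
  induction φ generalizing W with
  | rel R v => exact Iff.rfl
  | eq x y => exact Iff.rfl
  | and φ ψ ih1 ih2 => exact and_congr (ih1 g a) (ih2 g a)
  | ex φ ih =>
    refine exists_congr fun b => ?_
    rw [ih]
    have : (fun v => (Option.map g v).elim b a) = fun o : Option _ => o.elim b (fun v => a (g v)) := by
      funext o
      cases o <;> rfl
    rw [this]

/-- A true formula. -/
def top {S : Sig} (V : Type) : PP S V := .ex (.eq none none)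

theorem holds_top (B : Str) {V : Type} (a : V → B.dom) : Holds B (top V) a := by
  obtain ⟨b⟩ := B.inh
  exact ⟨b, rfl⟩

/-- Finite conjunctions. -/
def conj {S : Sig} {V : Type} : ∀ n : ℕ, (Fin n → PP S V) → PP S V
  | 0, _ => top V
  | n + 1, φ => .and (φ 0) (conj n (fun i => φ i.succ))

theorem holds_conj (B : Str) {V : Type} (a : V → B.dom) (n : ℕ) (φ : Fin n → PP B.sig V) :
    Holds B (conj n φ) a ↔ ∀ i, Holds B (φ i) a := by
  induction n with
  | zero => exact ⟨fun _ i => i.elim0, fun _ => holds_top B a⟩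
  | succ n ih =>
    rw [Fin.forall_fin_succ, ← ih]
    exact Iff.rfl

/-- The step of a block of quantifiers. -/
def shift {V : Type} (n : ℕ) : V ⊕ Fin (n + 1) → Option (V ⊕ Fin n)
  | .inl v => some (.inl v)
  | .inr i => Fin.cases none (fun j => some (.inr j)) i

/-- Blocks of existential quantifiers. -/
def exs {S : Sig} {V : Type} : ∀ n : ℕ, PP S (V ⊕ Fin n) → PP S V
  | 0, φ => rename (Sum.elim id (fun i => i.elim0)) φ
  | n + 1, φ => exs n (.ex (rename (shift n) φ))

theorem holds_exs (B : Str) {V : Type} (a : V → B.dom) (n : ℕ) (φ : PP B.sig (V ⊕ Fin n)) :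
    Holds B (exs n φ) a ↔ ∃ b : Fin n → B.dom, Holds B φ (Sum.elim a b) := by
  induction n with
  | zero =>
    show Holds B (rename _ φ) a ↔ _
    rw [holds_rename]
    have h : ∀ b : Fin 0 → B.dom, (fun v => a (Sum.elim id (fun i => i.elim0) v)) = Sum.elim a b := by
      intro b
      funext v
      rcases v with v | v
      · rfl
      · exact v.elim0
    constructor
    · intro h1
      refine ⟨fun i => i.elim0, ?_⟩
      rw [← h]
      exact h1
    · rintro ⟨b, hb⟩
      rw [h b]
      exact hb
  | succ n ih =>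
    show Holds B (exs n (.ex (rename (shift n) φ))) a ↔ _
    rw [ih]
    have h : ∀ (b : Fin n → B.dom) (c : B.dom),
        (fun v => (shift n v).elim c (Sum.elim a b)) = Sum.elim a (Fin.cons c b) := by
      intro b c
      funext v
      rcases v with v | v
      · rfl
      · refine Fin.cases ?_ (fun j => ?_) v
        · rfl
        · rfl
    constructor
    · rintro ⟨b, c, hc⟩
      rw [holds_rename, h] at hc
      exact ⟨_, hc⟩
    · rintro ⟨b, hb⟩
      refine ⟨Fin.tail b, b 0, ?_⟩
      rw [holds_rename, h, Fin.cons_self_tail]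
      exact hb

/-- Homomorphisms preserve primitive positive formulas. -/
theorem holds_hom {S : Sig} {A B : Type} (iA : Nonempty A) (iB : Nonempty B)
    (rA : ∀ R : S.sym, (Fin (S.ar R) → A) → Prop)
    (rB : ∀ R : S.sym, (Fin (S.ar R) → B) → Prop) (f : A → B) (hf : IsHom rA rB f) {V : Type}
    (φ : PP S V) (a : V → A) (h : Holds ⟨S, A, iA, rA⟩ φ a) :
    Holds ⟨S, B, iB, rB⟩ φ (fun v => f (a v)) := by
  induction φ with
  | rel R v => exact hf R _ h
  | eq x y => exact congrArg f h
  | and φ ψ ih1 ih2 => exact ⟨ih1 a h.1, ih2 a h.2⟩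
  | ex φ ih =>
    obtain ⟨b, hb⟩ := h
    refine ⟨f b, ?_⟩
    have := ih _ hb
    have h2 : (fun v : Option _ => f (v.elim b a)) = fun o => o.elim (f b) (fun v => f (a v)) := by
      funext o
      cases o <;> rfl
    rw [h2] at this
    exact this

/-- The reindexing of the variables for the translation of a quantifier. -/
def block {V : Type} {e : ℕ} : Option V × Fin e → (V × Fin e) ⊕ Fin e
  | (none, j) => .inr j
  | (some v, j) => .inl (v, j)

/-- The translation of formulas over a pp-power of `A` to formulas over `A`. -/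
def tr (A : Str) (S : Sig) (e : ℕ) (χ : ∀ R : S.sym, PP A.sig (Fin (S.ar R) × Fin e)) :
    ∀ {V : Type}, PP S V → PP A.sig (V × Fin e)
  | _, .rel R v => rename (fun p => (v p.1, p.2)) (χ R)
  | _, .eq x y => conj e (fun j => .eq (x, j) (y, j))
  | _, .and φ ψ => .and (tr A S e χ φ) (tr A S e χ ψ)
  | _, .ex φ => exs e (rename block (tr A S e χ φ))

theorem holds_tr (A : Str) (S : Sig) (e : ℕ) (χ : ∀ R : S.sym, PP A.sig (Fin (S.ar R) × Fin e))
    {V : Type} (φ : PP S V) (a : V × Fin e → A.dom) :
    Holds A (tr A S e χ φ) a ↔ Holds (power A S e χ) φ (fun v j => a (v, j)) := by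
  induction φ with
  | rel R v =>
    show Holds A (rename _ (χ R)) a ↔ _
    rw [holds_rename]
    exact Iff.rfl
  | eq x y =>
    show Holds A (conj e _) a ↔ _
    rw [holds_conj]
    exact ⟨fun h => funext h, fun h i => congrFun h i⟩
  | and φ ψ ih1 ih2 => exact and_congr (ih1 a) (ih2 a)
  | ex φ ih =>
    show Holds A (exs e (rename block (tr A S e χ φ))) a ↔ _
    rw [holds_exs]
    refine exists_congr fun b => ?_
    rw [holds_rename, ih]
    have : (fun v j => (fun v => Sum.elim a b (block v)) (v, j)) =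
        fun o : Option _ => o.elim b (fun v j => a (v, j)) := by
      funext o
      cases o <;> rfl
    rw [this]
    exact Iff.rfl

/-- pp-constructibility is transitive. -/
theorem trans {A B C : Str} (h1 : Constructs A B) (h2 : Constructs B C) : Constructs A C := by
  obtain ⟨e, he, χ, ⟨f', hf'⟩, ⟨g', hg'⟩⟩ := h1
  obtain ⟨d, hd, ψ, ⟨f, hf⟩, ⟨g, hg⟩⟩ := h2
  have hpos : 1 ≤ d * e := Nat.mul_pos hd he
  let ψ' : ∀ R : C.sig.sym, PP A.sig (Fin (C.sig.ar R) × Fin (d * e)) := fun R =>
    rename (fun p => (p.1.1, finProdFinEquiv (p.1.2, p.2))) (tr A B.sig e χ (ψ R))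
  have key : ∀ (R : C.sig.sym) (t : Fin (C.sig.ar R) → (Fin (d * e) → A.dom)),
      (power A C.sig (d * e) ψ').rel R t ↔
      Holds (power A B.sig e χ) (ψ R) (fun p j => t p.1 (finProdFinEquiv (p.2, j))) := by
    intro R t
    show Holds A (rename _ (tr A B.sig e χ (ψ R))) _ ↔ _
    rw [holds_rename, holds_tr]
  refine ⟨d * e, hpos, ψ', ⟨fun c q => f' (f c (finProdFinEquiv.symm q).1) (finProdFinEquiv.symm q).2,
    ?_⟩, ⟨fun t => g (fun i => g' (fun j => t (finProdFinEquiv (i, j)))), ?_⟩⟩
  · intro R t ht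
    rw [key]
    have h3 : Holds B (ψ R) (fun p => f (t p.1) p.2) := hf R t ht
    have h4 := holds_hom B.inh (power A B.sig e χ).inh B.rel (power A B.sig e χ).rel f' hf' (ψ R) _ h3
    simp only [Equiv.symm_apply_apply]
    exact h4
  · intro R t ht
    rw [key] at ht
    have h4 := holds_hom (power A B.sig e χ).inh B.inh (power A B.sig e χ).rel B.rel g' hg' (ψ R) _ ht
    exact hg R (fun i => (fun k => g' (fun j => t i (finProdFinEquiv (k, j))))) h4

end Pool.Agent.Q307.PPC
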